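import Mathlib

/-!
# Prescribed lim inf of the closed complexity for pure morphic words

For every `k` there is an aperiodic pure morphic word `x` with `liminf cl_x(n) = k`.
-/

set_option autoImplicit false

open Filter

namespace Pool.Agent.Results.MP_c8d5ab_co.PrescribedLiminf

/-! ### Definitions -/

/-- The finite word `v` occurs in the finite word `w` at position `i`. -/
def IsOcc {A : Type} {m n : ℕ} (v : Fin m → A) (w : Fin n → A) (i : ℕ) : Prop :=
  ∃ _ : i + m ≤ n, ∀ t : Fin m, w ⟨i + t, by omega⟩ = v t

/-- A finite word `w` is closed if `|w| ≤ 1` or some word `v` shorter than `w` occurs in `w`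
exactly twice, once as a prefix and once as a suffix. -/
def Closed {A : Type} {n : ℕ} (w : Fin n → A) : Prop :=
  n ≤ 1 ∨ ∃ m : ℕ, m < n ∧ ∃ v : Fin m → A, ∀ i : ℕ, IsOcc v w i ↔ (i = 0 ∨ i = n - m)

/-- The closed complexity: the number of closed factors of `x` of length `n`. -/
noncomputable def cl {A : Type} (x : ℕ → A) (n : ℕ) : ℕ :=
  Set.ncard {w : Fin n → A | (∃ p : ℕ, ∀ t : Fin n, w t = x (p + t)) ∧ Closed w}

/-- `x` is not ultimately periodic. -/
def Aperiodic {A : Type} (x : ℕ → A) : Prop :=
  ¬ ∃ q N : ℕ, 0 < q ∧ ∀ i : ℕ, N ≤ i → x (i + q) = x i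

/-- The word `φ^m(a)`. -/
def iter {A : Type} (φ : A → List A) (a : A) (m : ℕ) : List A :=
  (fun w : List A => w.flatMap φ)^[m] [a]

/-- `x = φ^ω(a)` for a morphism `φ` with `φ(a)` beginning with `a` and `|φ^m(a)| → ∞`. -/
def PureMorphic {A : Type} (x : ℕ → A) : Prop :=
  ∃ (φ : A → List A) (a : A), (φ a).head? = some a ∧
    Tendsto (fun m => (iter φ a m).length) atTop atTop ∧
    ∀ m i : ℕ, i < (iter φ a m).length → (iter φ a m)[i]? = some (x i)

/-! ### Return pairs -/

/-- `x[p..p+m)` occurs at `p` and at `p + D` and nowhere strictly between -/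
def Ret {A : Type} (x : ℕ → A) (p m D : ℕ) : Prop :=
  1 ≤ m ∧ 1 ≤ D ∧ (∀ s, s < m → x (p + D + s) = x (p + s)) ∧
    ∀ e, 0 < e → e < D → ∃ s, s < m ∧ x (p + e + s) ≠ x (p + s)

lemma ret_of_closed {A : Type} {x : ℕ → A} {p n : ℕ} (hn : 2 ≤ n)
    (h : Closed (fun t : Fin n => x (p + t))) : ∃ m D, m + D = n ∧ Ret x p m D := by
  rcases h with h | ⟨m, hm, v, hv⟩
  · omega
  · have hm1 : 1 ≤ m := by
      by_contra h0
      obtain rfl : m = 0 := by omega
      have := (hv 1).mp ⟨by omega, fun t => t.elim0⟩
      omega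
    obtain ⟨_, h0⟩ := (hv 0).mpr (Or.inl rfl)
    obtain ⟨_, h1⟩ := (hv (n - m)).mpr (Or.inr rfl)
    refine ⟨m, n - m, by omega, hm1, by omega, fun s hs => ?_, fun e he he' => ?_⟩
    · have e0 := h0 ⟨s, hs⟩
      have e1 := h1 ⟨s, hs⟩
      simp only at e0 e1
      rw [zero_add] at e0
      rw [e0, ← e1, add_assoc]
    · by_contra hcon
      push Not at hcon
      have := (hv e).mp ⟨by omega, fun t => by
        have e0 := h0 t
        simp only at e0
        rw [zero_add] at e0
        rw [← e0]
        simp only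
        rw [← add_assoc]
        exact hcon t t.2⟩
      omega

/-! ### The case `k = 0`: the paperfolding morphism -/

/-- the second coordinate: `κ(2i) = [i odd]`, `κ(2i+1) = κ(i)` -/
def ka (n : ℕ) : Bool :=
  if n % 2 = 0 then decide (n / 2 % 2 = 1) else ka (n / 2)
termination_by n
decreasing_by omega

lemma ka_even (i : ℕ) : ka (2 * i) = decide (i % 2 = 1) := by
  rw [ka, if_pos (by omega)]
  congr 2
  omega

lemma ka_odd (i : ℕ) : ka (2 * i + 1) = ka i := by
  rw [ka, if_neg (by omega)]
  congr 1
  omega

/-- the fixed point of `(π, κ) ↦ (0, π)(1, κ)` -/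
def X (n : ℕ) : Bool × Bool := (decide (n % 2 = 1), ka n)

lemma X_eq {i j : ℕ} : X i = X j ↔ i % 2 = j % 2 ∧ ka i = ka j := by
  unfold X
  rw [Prod.mk.injEq, decide_eq_decide]
  constructor
  · rintro ⟨h1, h2⟩; exact ⟨by omega, h2⟩
  · rintro ⟨h1, h2⟩; exact ⟨by omega, h2⟩

lemma X_even_eq {i D : ℕ} (hD : D % 4 = 0) (hi : i % 2 = 0) : X (i + D) = X i := by
  rw [X_eq]
  refine ⟨by omega, ?_⟩
  rw [show i + D = 2 * (i / 2 + D / 2) by omega]
  nth_rw 2 [show i = 2 * (i / 2) by omega]
  rw [ka_even, ka_even, decide_eq_decide]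
  omega

lemma mod_four {i D : ℕ} (hi : i % 2 = 0) (h : X (i + D) = X i) : D % 4 = 0 := by
  rw [X_eq] at h
  obtain ⟨h1, h2⟩ := h
  rw [show i + D = 2 * (i / 2 + D / 2) by omega] at h2
  nth_rw 2 [show i = 2 * (i / 2) by omega] at h2
  rw [ka_even, ka_even, decide_eq_decide] at h2
  omega

/-- going down one level -/
lemma X_down {i D : ℕ} (hD : D % 2 = 0) (h : X (2 * i + 1 + 2 * D) = X (2 * i + 1)) :
    X (i + D) = X i := by
  rw [X_eq] at h ⊢
  refine ⟨by omega, ?_⟩
  have := h.2
  rwa [show 2 * i + 1 + 2 * D = 2 * (i + D) + 1 by ring, ka_odd, ka_odd] at this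

lemma X_up {i D : ℕ} (h : X (i + D) = X i) : X (2 * i + 2 * D) = X (2 * i) ∧
    X (2 * i + 1 + 2 * D) = X (2 * i + 1) := by
  rw [X_eq] at h
  constructor
  · rw [X_eq]
    refine ⟨by omega, ?_⟩
    rw [← mul_add, ka_even, ka_even, decide_eq_decide]
    omega
  · rw [X_eq]
    refine ⟨by omega, ?_⟩
    rw [show 2 * i + 1 + 2 * D = 2 * (i + D) + 1 by ring, ka_odd, ka_odd]
    exact h.2

lemma no_ret : ∀ j p m D : ℕ, 1 ≤ j → m + D = 2 ^ j → ¬ Ret X p m D := by
  intro j
  induction j with
  | zero => intro p m D h; omega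
  | succ j ih =>
    intro p m D _ hmD hret
    obtain ⟨hm, hD, hrep, hno⟩ := hret
    have hpar : D % 2 = 0 := by
      have := hrep 0 hm
      simp only [add_zero] at this
      rw [X_eq] at this
      omega
    rcases Nat.eq_zero_or_pos j with hj | hj
    · subst hj
      norm_num at hmD
      omega
    · have h4 : 2 ^ (j + 1) = 4 * 2 ^ (j - 1) := by
        obtain ⟨j', rfl⟩ : ∃ j', j = j' + 1 := ⟨j - 1, by omega⟩
        rw [Nat.add_sub_cancel]; ring
      have h2 : 2 ^ (j + 1) = 2 * 2 ^ j := by ring
      have hD4 : D % 4 = 0 := by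
        rcases Nat.mod_two_eq_zero_or_one p with h | h
        · have := hrep 0 hm
          simp only [add_zero] at this
          exact mod_four h this
        · have := hrep 1 (by omega)
          rw [show p + D + 1 = p + 1 + D by ring] at this
          exact mod_four (by omega) this
      -- the even case
      have even_case : ∀ p, p % 2 = 0 → Ret X p m D → False := by
        intro p hp ⟨_, _, hrep, hno⟩
        obtain ⟨p', rfl⟩ : ∃ p', p = 2 * p' := ⟨p / 2, by omega⟩
        obtain ⟨m', rfl⟩ : ∃ m', m = 2 * m' := ⟨m / 2, by omega⟩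
        obtain ⟨D', rfl⟩ : ∃ D', D = 2 * D' := ⟨D / 2, by omega⟩
        apply ih p' m' D' hj (by omega)
        refine ⟨by omega, by omega, fun s hs => ?_, fun e he he' => ?_⟩
        · have := hrep (2 * s + 1) (by omega)
          rw [show 2 * p' + 2 * D' + (2 * s + 1) = 2 * (p' + s) + 1 + 2 * D' by ring,
            show 2 * p' + (2 * s + 1) = 2 * (p' + s) + 1 by ring] at this
          have := X_down (by omega) this
          rw [show p' + D' + s = p' + s + D' by ring]
          exact this
        · by_contra hcon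
          push Not at hcon
          obtain ⟨s, hs, hne⟩ := hno (2 * e) (by omega) (by omega)
          apply hne
          have := hcon (s / 2) (by omega)
          rw [show p' + e + s / 2 = p' + s / 2 + e by ring] at this
          have := X_up this
          rcases Nat.mod_two_eq_zero_or_one s with h | h
          · rw [show 2 * p' + 2 * e + s = 2 * (p' + s / 2) + 2 * e by omega,
              show 2 * p' + s = 2 * (p' + s / 2) by omega]
            exact this.1
          · rw [show 2 * p' + 2 * e + s = 2 * (p' + s / 2) + 1 + 2 * e by omega,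
              show 2 * p' + s = 2 * (p' + s / 2) + 1 by omega]
            exact this.2
      rcases Nat.mod_two_eq_zero_or_one p with h | h
      · exact even_case p h ⟨hm, hD, hrep, hno⟩
      · obtain ⟨p', rfl⟩ : ∃ p', p = p' + 1 := ⟨p - 1, by omega⟩
        apply even_case p' (by omega)
        refine ⟨hm, hD, fun s hs => ?_, fun e he he' => ?_⟩
        · rcases Nat.eq_zero_or_pos s with h0 | h0
          · subst h0
            exact X_even_eq hD4 (by omega)
          · have := hrep (s - 1) (by omega)
            rw [show p' + 1 + D + (s - 1) = p' + D + s by omega,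
              show p' + 1 + (s - 1) = p' + s by omega] at this
            exact this
        · by_contra hcon
          push Not at hcon
          have he4 : e % 4 = 0 := by
            have := hcon 0 hm
            simp only [add_zero] at this
            exact mod_four (by omega) this
          obtain ⟨s, hs, hne⟩ := hno e he he'
          apply hne
          rcases Nat.lt_or_ge (s + 1) m with h1 | h1
          · have := hcon (s + 1) h1
            rw [show p' + 1 + e + s = p' + e + (s + 1) by ring,
              show p' + 1 + s = p' + (s + 1) by ring]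
            exact this
          · rw [show p' + 1 + e + s = p' + 1 + s + e by ring]
            exact X_even_eq he4 (by omega)

lemma cl_X (j : ℕ) (hj : 1 ≤ j) : cl X (2 ^ j) = 0 := by
  unfold cl
  rw [Set.ncard_eq_zero (Set.toFinite _), Set.eq_empty_iff_forall_notMem]
  rintro w ⟨⟨p, hp⟩, hc⟩
  have hw : w = fun t : Fin (2 ^ j) => X (p + t) := funext hp
  subst hw
  have h2 : 2 ≤ 2 ^ j := by
    calc 2 = 2 ^ 1 := rfl
      _ ≤ 2 ^ j := Nat.pow_le_pow_right (by omega) hj
  obtain ⟨m, D, hmD, hret⟩ := ret_of_closed h2 hc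
  exact no_ret j p m D hj hmD hret

lemma X_aper : Aperiodic X := by
  rintro ⟨q, N, hq, h⟩
  revert hq h
  induction q using Nat.strong_induction_on with
  | _ q ih =>
    intro hq h
    have h4 : q % 4 = 0 := by
      have := h (2 * N) (by omega)
      exact mod_four (by omega) this
    apply ih (q / 2) (by omega) (by omega)
    intro i hi
    have := h (2 * i + 1) (by omega)
    rw [show 2 * i + 1 + q = 2 * i + 1 + 2 * (q / 2) by omega] at this
    exact X_down (by omega) this

/-- the morphism -/
def ph0 : Bool × Bool → List (Bool × Bool) := fun u => [(false, u.1), (true, u.2)]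

/-- prefixes -/
def pre {A : Type} (x : ℕ → A) (n : ℕ) : List A := (List.range n).map x

lemma pre_succ {A : Type} (x : ℕ → A) (n : ℕ) : pre x (n + 1) = pre x n ++ [x n] := by
  unfold pre; rw [List.range_succ, List.map_append]; rfl

lemma pre_get {A : Type} (x : ℕ → A) {n N : ℕ} (h : N < n) : (pre x n)[N]? = some (x N) := by
  unfold pre
  rw [List.getElem?_map, List.getElem?_range h]; rfl

lemma pre_length {A : Type} (x : ℕ → A) (n : ℕ) : (pre x n).length = n := by simp [pre]

lemma ph0_pre (n : ℕ) : (pre X n).flatMap ph0 = pre X (2 * n) := by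
  induction n with
  | zero => rfl
  | succ n ih =>
    rw [pre_succ, List.flatMap_append, ih, show 2 * (n + 1) = 2 * n + 1 + 1 by ring, pre_succ,
      pre_succ]
    have e1 : X (2 * n) = (false, (X n).1) := by
      unfold X; rw [ka_even, show 2 * n % 2 = 0 by omega]; rfl
    have e2 : X (2 * n + 1) = (true, (X n).2) := by
      unfold X; rw [ka_odd, show (2 * n + 1) % 2 = 1 by omega]; rfl
    rw [e1, e2]
    simp [ph0]

lemma iter_X (m : ℕ) : iter ph0 (false, false) m = pre X (2 ^ m) := by
  unfold iter
  induction m with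
  | zero =>
    have : X 0 = (false, false) := by unfold X; rw [show (0 : ℕ) = 2 * 0 by rfl, ka_even]; rfl
    simp [pre, this]
  | succ m ih =>
    rw [Function.iterate_succ', Function.comp, ih]
    rw [ph0_pre]
    congr 1
    ring

lemma X_morphic : PureMorphic X := by
  refine ⟨ph0, (false, false), rfl, ?_, fun m i hi => ?_⟩
  · simp only [iter_X, pre_length]
    exact tendsto_pow_atTop_atTop_of_one_lt (by norm_num)
  · rw [iter_X] at hi ⊢
    rw [pre_length] at hi
    exact pre_get X hi

lemma case_zero : liminf (fun n => (cl X n : ℕ∞)) atTop = 0 := by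
  apply le_antisymm _ bot_le
  apply liminf_le_of_frequently_le'
  rw [frequently_atTop]
  intro N
  refine ⟨2 ^ (N + 1), ?_, ?_⟩
  · have := Nat.lt_two_pow_self (n := N + 1)
    omega
  · rw [cl_X (N + 1) (by omega)]; simp

/-! ### The case `k ≥ 1` -/

section pos

variable (k : ℕ)

/-- letters: `none = a`, `some none = b`, `some (some i) = c_i` -/
abbrev L : Type := Option (Option (Fin k))

/-- the letter `c_i` -/
def cc (i : ℕ) : L k := if h : i < k then some (some ⟨i, h⟩) else some none

/-- the exponent -/
def M : ℕ := 2 * k + 6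

/-- the block `b c_0^{M^j} ⋯ c_{k-1}^{M^j}` -/
def B (j : ℕ) : List (L k) := some none :: (List.range (k * M k ^ j)).map fun t => cc k (t / M k ^ j)

/-- the morphism `a ↦ a B_0`, `b ↦ b`, `c_i ↦ c_i^M` -/
def ph : L k → List (L k)
  | none => none :: B k 0
  | some none => [some none]
  | some (some i) => List.replicate (M k) (some (some i))

/-- `a B_0 ⋯ B_{m-1}` -/
def W : ℕ → List (L k)
  | 0 => [none]
  | m + 1 => W m ++ B k m

/-- the position of the block `B_j` -/
def P (j : ℕ) : ℕ := (W k j).length

lemma B_length (j : ℕ) : (B k j).length = 1 + k * M k ^ j := by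
  unfold B; simp [add_comm]

lemma P_zero : P k 0 = 1 := rfl

lemma P_succ (j : ℕ) : P k (j + 1) = P k j + 1 + k * M k ^ j := by
  unfold P; rw [W, List.length_append, B_length]; ring

lemma P_lt (j : ℕ) : P k j < P k (j + 1) := by rw [P_succ]; omega

lemma P_ge (j : ℕ) : j + 1 ≤ P k j := by
  induction j with
  | zero => rw [P_zero]
  | succ j ih => have := P_lt k j; omega

lemma P_mono {i j : ℕ} (h : i ≤ j) : P k i ≤ P k j := by
  induction j, h using Nat.le_induction with
  | base => exact le_rfl
  | succ j _ ih => have := P_lt k j; omega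

lemma M_pos (j : ℕ) : 0 < M k ^ j := Nat.pow_pos (by unfold M; omega)

lemma two_P (j : ℕ) (hj : 1 ≤ j) : 2 * P k j + 2 ≤ M k ^ j := by
  induction j, hj using Nat.le_induction with
  | base => rw [P_succ, P_zero, pow_zero, pow_one, mul_one]; unfold M; omega
  | succ j hj ih =>
    rw [P_succ, pow_succ]
    have h1 := M_pos k j
    have h2 : M k ^ j * M k = 2 * (k * M k ^ j) + 6 * M k ^ j := by
      nth_rw 2 [M]; ring
    rw [h2]
    omega

lemma flatMap_rep {A : Type} (N m : ℕ) (hm : 0 < m) (f : ℕ → A) :
    (List.range N).flatMap (fun t => List.replicate m (f t)) =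
      (List.range (N * m)).map fun s => f (s / m) := by
  induction N with
  | zero => simp
  | succ N ih =>
    rw [List.range_succ, List.flatMap_append, ih, Nat.succ_mul, List.range_add, List.map_append]
    congr 1
    rw [List.map_map]
    simp only [List.flatMap_cons, List.flatMap_nil, List.append_nil]
    symm
    rw [List.eq_replicate_iff]
    refine ⟨by simp, fun b hb => ?_⟩
    rw [List.mem_map] at hb
    obtain ⟨a, ha, rfl⟩ := hb
    rw [List.mem_range] at ha
    simp only [Function.comp]
    congr 1
    rw [Nat.add_comm, Nat.mul_comm, Nat.add_mul_div_left _ _ hm, Nat.div_eq_of_lt ha, Nat.zero_add]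

lemma ph_cc {i : ℕ} (h : i < k) : ph k (cc k i) = List.replicate (M k) (cc k i) := by
  unfold cc; rw [dif_pos h]; rfl

lemma ph_B (j : ℕ) : (B k j).flatMap (ph k) = B k (j + 1) := by
  unfold B
  rw [List.flatMap_cons, List.flatMap_map]
  change [some none] ++ _ = _
  rw [List.singleton_append]
  congr 1
  have h1 : (List.range (k * M k ^ j)).flatMap (fun a => ph k (cc k (a / M k ^ j))) =
      (List.range (k * M k ^ j)).flatMap
        (fun a => List.replicate (M k) (cc k (a / M k ^ j))) := by
    apply List.flatMap_congr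
    intro a ha
    rw [List.mem_range] at ha
    exact ph_cc k (Nat.div_lt_of_lt_mul (by rwa [mul_comm]))
  rw [h1, flatMap_rep _ _ (by unfold M; omega) (fun a => cc k (a / M k ^ j)), pow_succ, mul_assoc]
  apply List.map_congr_left
  intro s _
  rw [Nat.div_div_eq_div_mul, mul_comm (M k)]

lemma ph_W (m : ℕ) : (W k m).flatMap (ph k) = W k (m + 1) := by
  induction m with
  | zero => simp [W, ph]
  | succ m ih => rw [W, List.flatMap_append, ih, ph_B]; rfl

lemma iter_W (m : ℕ) : iter (ph k) none m = W k m := by
  unfold iter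
  induction m with
  | zero => rfl
  | succ m ih => rw [Function.iterate_succ', Function.comp, ih, ph_W]

/-- the word -/
def Z (i : ℕ) : L k := ((W k i)[i]?).getD none

lemma W_get {m m' i : ℕ} (h : m ≤ m') (hi : i < P k m) : (W k m')[i]? = (W k m)[i]? := by
  induction m', h using Nat.le_induction with
  | base => rfl
  | succ m' h ih =>
    rw [W, List.getElem?_append_left, ih]
    exact lt_of_lt_of_le hi (P_mono k h)

lemma Z_get {m i : ℕ} (hi : i < P k m) : (W k m)[i]? = some (Z k i) := by
  have h1 : i < P k i := by have := P_ge k i; omega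
  have h2 : (W k m)[i]? = (W k i)[i]? := by
    rcases Nat.le_total m i with h | h
    · exact (W_get k h hi).symm
    · exact W_get k h h1
  have h3 : i < (W k i).length := h1
  rw [h2]
  unfold Z
  rw [List.getElem?_eq_getElem h3]
  rfl

lemma Z_morphic : PureMorphic (Z k) := by
  refine ⟨ph k, none, rfl, ?_, fun m i hi => ?_⟩
  · simp only [iter_W]
    apply tendsto_atTop_mono (f := fun m => m) _ tendsto_id
    intro m
    have := P_ge k m
    unfold P at this
    omega
  · rw [iter_W] at hi ⊢
    exact Z_get k hi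

lemma Z_block {j r : ℕ} (hr : r < 1 + k * M k ^ j) : (B k j)[r]? = some (Z k (P k j + r)) := by
  have h1 : P k j + r < P k (j + 1) := by rw [P_succ]; omega
  have h2 := Z_get k h1
  rw [W, List.getElem?_append_right (by unfold P; omega)] at h2
  rw [← h2]
  congr 1
  unfold P; omega

lemma Z_b (j : ℕ) : Z k (P k j) = some none := by
  have := Z_block k (j := j) (r := 0) (by omega)
  simp only [B, List.getElem?_cons_zero, add_zero] at this
  exact (Option.some.inj this).symm

lemma Z_c {j t : ℕ} (ht : t < k * M k ^ j) : Z k (P k j + 1 + t) = cc k (t / M k ^ j) := by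
  have := Z_block k (j := j) (r := t + 1) (by omega)
  rw [B, List.getElem?_cons_succ, List.getElem?_map, List.getElem?_range ht] at this
  rw [show P k j + 1 + t = P k j + (t + 1) by ring]
  exact (Option.some.inj this).symm

/-- the run of `c_i` in the block `B_j` -/
lemma Z_run {i j q : ℕ} (hi : i < k) (h1 : P k j + 1 + i * M k ^ j ≤ q)
    (h2 : q < P k j + 1 + (i + 1) * M k ^ j) : Z k q = cc k i := by
  obtain ⟨t, rfl⟩ : ∃ t, q = P k j + 1 + t := ⟨q - (P k j + 1), by omega⟩
  have h3 : i * M k ^ j ≤ t := by omega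
  have h4 : t < (i + 1) * M k ^ j := by omega
  have h5 : (i + 1) * M k ^ j ≤ k * M k ^ j := Nat.mul_le_mul_right _ hi
  rw [Z_c k (by omega)]
  congr 1
  rw [Nat.div_eq_iff (M_pos k j)]
  have h6 : (i + 1) * M k ^ j = i * M k ^ j + M k ^ j := by ring
  omega

lemma cc_ne_b {i : ℕ} (h : i < k) : cc k i ≠ some none := by
  unfold cc; rw [dif_pos h]; simp

lemma cc_inj {i j : ℕ} (hi : i < k) (hj : j < k) (h : cc k i = cc k j) : i = j := by
  unfold cc at h
  rw [dif_pos hi, dif_pos hj] at h
  simpa using h

end pos

/-! ### Boundary lemmas -/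

/-- one boundary between two different runs: not closed -/
lemma no_ret_one {A : Type} {x : ℕ → A} {p q n m D : ℕ} {α β : A} (hab : α ≠ β)
    (h1 : ∀ i, p ≤ i → i < q → x i = α) (h2 : ∀ i, q ≤ i → i < p + n → x i = β)
    (hp : p < q) (hq : q < p + n) (hmD : m + D = n) : ¬ Ret x p m D := by
  rintro ⟨hm, hD, hrep, -⟩
  have e1 : p + D < q := by
    by_contra hc
    have a1 := hrep 0 hm
    rw [add_zero, add_zero, h1 p le_rfl hp, h2 (p + D) (by omega) (by omega)] at a1
    exact hab a1.symm
  have e2 : q ≤ p + m - 1 := by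
    by_contra hc
    have a1 := hrep (m - 1) (by omega)
    rw [h2 (p + D + (m - 1)) (by omega) (by omega), h1 (p + (m - 1)) (by omega) (by omega)] at a1
    exact hab a1.symm
  have a1 := hrep (q - 1 - p) (by omega)
  rw [h1 (p + (q - 1 - p)) (by omega) (by omega),
    h2 (p + D + (q - 1 - p)) (by omega) (by omega)] at a1
  exact hab a1.symm

/-- a single letter `b` in between: closed only if the length is odd -/
lemma no_ret_b {A : Type} {x : ℕ → A} {p q n m D : ℕ} {α β γ : A} (ha : α ≠ γ) (hb : β ≠ γ)
    (h1 : ∀ i, p ≤ i → i < q → x i = α) (hq : x q = γ)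
    (h2 : ∀ i, q < i → i < p + n → x i = β)
    (hp : p ≤ q) (hq' : q < p + n) (hn : n % 2 = 0) (hmD : m + D = n) : ¬ Ret x p m D := by
  rintro ⟨hm, hD, hrep, hno⟩
  -- the letter `γ` occurs only once
  have hu : ∀ i, p ≤ i → i < p + n → i ≠ q → x i ≠ γ := by
    intro i hi hi' hne
    rcases Nat.lt_or_ge i q with h | h
    · rw [h1 i hi h]; exact ha
    · rw [h2 i (by omega) hi']; exact hb
  have e1 : p + m ≤ q := by
    by_contra hc
    have a1 := hrep (q - p) (by omega)
    rw [show p + (q - p) = q by omega, hq] at a1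
    exact hu _ (by omega) (by omega) (by omega) a1
  have e2 : q < p + D := by
    by_contra hc
    have a1 := hrep (q - D - p) (by omega)
    rw [show p + D + (q - D - p) = q by omega, hq] at a1
    exact hu _ (by omega) (by omega) (by omega) a1.symm
  have hαβ : β = α := by
    have a1 := hrep 0 hm
    rwa [add_zero, add_zero, h1 p le_rfl (by omega), h2 (p + D) (by omega) (by omega)] at a1
  subst hαβ
  have e3 : q = p + m := by
    by_contra hc
    obtain ⟨s, hs, hne⟩ := hno 1 (by omega) (by omega)
    apply hne
    rw [h1 _ (by omega) (by omega), h1 _ (by omega) (by omega)]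
  have e4 : p + D = q + 1 := by
    by_contra hc
    obtain ⟨s, hs, hne⟩ := hno (D - 1) (by omega) (by omega)
    apply hne
    rw [h2 _ (by omega) (by omega), h1 _ (by omega) (by omega)]
  omega

section pos2

variable (k : ℕ)

/-- For even `n` with `2 P_J + 2 ≤ n ≤ M^J`, the closed factors of length `n` are the `c_i^n`. -/
lemma closed_run {J n p m D : ℕ} (hk : 1 ≤ k) (h1 : 2 * P k J + 2 ≤ n) (h2 : n ≤ M k ^ J)
    (hn : n % 2 = 0) (hmD : m + D = n) (hret : Ret (Z k) p m D) :
    ∃ i, i < k ∧ ∀ t, t < n → Z k (p + t) = cc k i := by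
  rcases Nat.lt_or_ge p (P k J) with hp | hp
  · -- the factor starts before the block `B_J`
    exfalso
    obtain ⟨hm, hD, hrep, hno⟩ := hret
    have hb := Z_b k J
    have hc : ∀ i, P k J < i → i < p + n → Z k i = cc k 0 := by
      intro i hi hi'
      apply Z_run k (j := J) (by omega) <;> simp <;> omega
    have hne := cc_ne_b k (i := 0) (by omega)
    have e1 : P k J < p + D := by
      by_contra hcon
      have a1 := hrep (P k J - D - p) (by omega)
      rw [show p + D + (P k J - D - p) = P k J by omega, hb] at a1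
      -- the position `P - D` carries `b`, and the next ones carry `c_0`
      have a2 := hrep (P k J - p) (by omega)
      rw [show p + (P k J - p) = P k J by omega, hb, hc _ (by omega) (by omega)] at a2
      exact hne a2
    have e2 : p + m ≤ P k J := by
      by_contra hcon
      have a1 := hrep (P k J - p) (by omega)
      rw [show p + (P k J - p) = P k J by omega, hb, hc _ (by omega) (by omega)] at a1
      exact hne a1
    obtain ⟨s, hs, hne'⟩ := hno (D - 1) (by omega) (by omega)
    apply hne'
    rw [← hrep s hs, hc _ (by omega) (by omega), hc _ (by omega) (by omega)]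
  · -- find the block
    obtain ⟨j, hj, hpj, hpj'⟩ : ∃ j, J ≤ j ∧ P k j ≤ p ∧ p < P k (j + 1) := by
      have hex : ∃ j, p < P k (j + 1) := ⟨p, by have := P_ge k (p + 1); omega⟩
      classical
      refine ⟨Nat.find hex, ?_, ?_, Nat.find_spec hex⟩
      · by_contra hcon
        have := P_mono k (i := Nat.find hex + 1) (j := J) (by omega)
        have := Nat.find_spec hex
        omega
      · rcases Nat.eq_zero_or_pos (Nat.find hex) with h0 | h0
        · rw [h0]
          have := P_mono k (i := 0) (j := J) (by omega)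
          omega
        · have := Nat.find_min hex (m := Nat.find hex - 1) (by omega)
          rw [Nat.sub_add_cancel h0] at this
          omega
    have hL : n ≤ M k ^ j := h2.trans (Nat.pow_le_pow_right (by unfold M; omega) hj)
    have hL' : M k ^ j ≤ M k ^ (j + 1) := Nat.pow_le_pow_right (by unfold M; omega) (by omega)
    have hnb := fun i (h : i < k) => cc_ne_b k h
    rcases Nat.eq_or_lt_of_le hpj with hpe | hpe
    · -- starting at `b`
      exfalso
      refine no_ret_b (α := cc k 0) (β := cc k 0) (γ := some none) (q := p) (hnb 0 (by omega))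
        (hnb 0 (by omega)) (fun i a b => by omega) (by rw [← hpe]; exact Z_b k j)
        (fun i hi hi' => ?_) le_rfl (by omega) hn hmD hret
      apply Z_run k (j := j) (by omega) <;> simp <;> omega
    · obtain ⟨t, rfl⟩ : ∃ t, p = P k j + 1 + t := ⟨p - (P k j + 1), by omega⟩
      have ht : t < k * M k ^ j := by rw [P_succ] at hpj'; omega
      set i := t / M k ^ j with hi
      have hik : i < k := Nat.div_lt_of_lt_mul (by rwa [mul_comm])
      have hi1 : i * M k ^ j ≤ t := Nat.div_mul_le_self t _
      have hi2 : t < (i + 1) * M k ^ j := by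
        have := Nat.lt_div_mul_add (M_pos k j) (a := t)
        rw [← hi] at this
        rw [add_mul, one_mul]; exact this
      rcases Nat.lt_or_ge ((i + 1) * M k ^ j) (t + n) with hlong | hshort
      · rcases Nat.lt_or_ge (i + 1) k with hik' | hik'
        · exfalso
          refine no_ret_one (α := cc k i) (β := cc k (i + 1))
            (q := P k j + 1 + (i + 1) * M k ^ j)
            (fun h => by have := cc_inj k hik hik' h; omega)
            (fun q hq hq' => Z_run k hik (by omega) hq')
            (fun q hq hq' => Z_run k hik' hq (by rw [add_mul (i + 1), one_mul]; omega))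
            (by omega) (by omega) hmD hret
        · exfalso
          have hik2 : i + 1 = k := by omega
          have hPj : P k (j + 1) = P k j + 1 + (i + 1) * M k ^ j := by rw [P_succ, hik2]
          refine no_ret_b (x := Z k) (α := cc k i) (β := cc k 0) (γ := some none)
            (q := P k (j + 1)) (hnb i hik) (hnb 0 (by omega))
            (fun q hq hq' => Z_run k (j := j) hik (by omega) (by omega)) (Z_b k (j + 1))
            (fun q hq hq' => Z_run k (j := j + 1) (by omega) (by simp; omega) (by simp; omega))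
            (by omega) (by omega) hn hmD hret
      · exact ⟨i, hik, fun s hs => Z_run k (j := j) hik (by omega) (by omega)⟩

/-- `c_i^n` is closed -/
lemma closed_const {A : Type} (c : A) {n : ℕ} (hn : 2 ≤ n) : Closed (fun _ : Fin n => c) := by
  refine Or.inr ⟨n - 1, by omega, fun _ => c, fun i => ?_⟩
  constructor
  · rintro ⟨h, -⟩; omega
  · intro h
    exact ⟨by omega, fun _ => rfl⟩

lemma const_factor {i : ℕ} (hi : i < k) (n : ℕ) :
    ∃ p, ∀ t : Fin n, cc k i = Z k (p + t) := by
  obtain ⟨j, hj⟩ : ∃ j, n ≤ M k ^ j :=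
    ⟨n, (Nat.lt_pow_self (by unfold M; omega)).le⟩
  refine ⟨P k j + 1 + i * M k ^ j, fun t => ?_⟩
  have := t.2
  rw [Z_run k (j := j) hi (by omega) (by rw [add_mul, one_mul]; omega)]

/-- the set of constant words -/
lemma consts_card {n : ℕ} (hn : 2 ≤ n) :
    Set.ncard {w : Fin n → L k | ∃ i, i < k ∧ w = fun _ => cc k i} = k := by
  have : {w : Fin n → L k | ∃ i, i < k ∧ w = fun _ => cc k i} =
      (Finset.image (fun i : ℕ => (fun _ : Fin n => cc k i)) (Finset.range k) : Set _) := by
    ext w
    simp only [Set.mem_ofPred_eq, Finset.coe_image, Set.mem_image, Finset.coe_range, Set.mem_Iio]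
    constructor
    · rintro ⟨i, hi, rfl⟩; exact ⟨i, hi, rfl⟩
    · rintro ⟨i, hi, rfl⟩; exact ⟨i, hi, rfl⟩
  rw [this, Set.ncard_coe_finset, Finset.card_image_of_injOn, Finset.card_range]
  intro i hi j hj h
  simp only [Finset.coe_range, Set.mem_Iio] at hi hj
  exact cc_inj k hi hj (congrFun h ⟨0, by omega⟩)

lemma cl_ge {n : ℕ} (hn : 2 ≤ n) : k ≤ cl (Z k) n := by
  conv_lhs => rw [← consts_card k hn]
  apply Set.ncard_le_ncard _ (Set.toFinite _)
  rintro w ⟨i, hi, rfl⟩
  obtain ⟨p, hp⟩ := const_factor k hi n
  exact ⟨⟨p, hp⟩, closed_const _ hn⟩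

lemma cl_eq (hk : 1 ≤ k) {J : ℕ} (hJ : 1 ≤ J) : cl (Z k) (2 * P k J + 2) = k := by
  apply le_antisymm _ (cl_ge k (by omega))
  conv_rhs => rw [← consts_card k (n := 2 * P k J + 2) (by omega)]
  apply Set.ncard_le_ncard _ (Set.toFinite _)
  rintro w ⟨⟨p, hp⟩, hc⟩
  have hw : w = fun t : Fin (2 * P k J + 2) => Z k (p + t) := funext hp
  subst hw
  obtain ⟨m, D, hmD, hret⟩ := ret_of_closed (by omega) hc
  obtain ⟨i, hi, h⟩ := closed_run k hk le_rfl (two_P k J hJ) (by omega) hmD hret
  exact ⟨i, hi, funext fun t => h t t.2⟩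

lemma Z_aper (hk : 1 ≤ k) : Aperiodic (Z k) := by
  rintro ⟨q, N, hq, h⟩
  have h1 : N ≤ P k (N + q) := by have := P_ge k (N + q); omega
  have h2 := h _ h1
  have h3 : q < M k ^ (N + q) :=
    lt_of_lt_of_le (Nat.lt_pow_self (by unfold M; omega))
      (Nat.pow_le_pow_right (by unfold M; omega) (by omega))
  rw [Z_b, Z_run k (i := 0) (j := N + q) (by omega) (by simp; omega) (by simp; omega)] at h2
  exact cc_ne_b k (by omega) h2

lemma case_pos (hk : 1 ≤ k) : liminf (fun n => (cl (Z k) n : ℕ∞)) atTop = k := by
  apply le_antisymm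
  · apply liminf_le_of_frequently_le'
    rw [frequently_atTop]
    intro N
    refine ⟨2 * P k (N + 1) + 2, ?_, ?_⟩
    · have := P_ge k (N + 1); omega
    · rw [cl_eq k hk (by omega)]
  · apply le_liminf_of_le
    · isBoundedDefault
    · rw [eventually_atTop]
      exact ⟨2, fun n hn => by exact_mod_cast cl_ge k hn⟩

end pos2

/-- **Positive answer.** For every natural number `k` there is an aperiodic pure morphic word `x`
over a finite alphabet with `liminf_n cl_x(n) = k`. -/
theorem result (k : ℕ) : ∃ (A : Type) (_ : Finite A) (x : ℕ → A),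
    PureMorphic x ∧ Aperiodic x ∧ liminf (fun n => (cl x n : ℕ∞)) atTop = k := by
  rcases Nat.eq_zero_or_pos k with hk | hk
  · subst hk
    exact ⟨Bool × Bool, inferInstance, X, X_morphic, X_aper, by exact_mod_cast case_zero⟩
  · exact ⟨L k, inferInstance, Z k, Z_morphic k, Z_aper k hk, case_pos k hk⟩

end Pool.Agent.Results.MP_c8d5ab_co.PrescribedLiminf
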